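import Pool.Agent.Helper17.CT.Defs

/-!
# CT-24 to CT-27: cubic simple graphs, Hamilton cycles as walks and as sets of darts
-/

set_option autoImplicit false

namespace Pool.Agent.Helper17.CT

section graph
variable {V : Type} [Fintype V] [DecidableEq V] (G : SimpleGraph V)

private theorem ct24_fintype_four (h3 : ∀ v : V, (G.neighborSet v).ncard = 3)
    (d1 d2 d3 d4 : G.Dart) (e2 : d2.fst = d1.fst) (e3 : d3.fst = d1.fst) (e4 : d4.fst = d1.fst)
    (n12 : d1 ≠ d2) (n13 : d1 ≠ d3) (n14 : d1 ≠ d4) (n23 : d2 ≠ d3) (n24 : d2 ≠ d4)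
    (n34 : d3 ≠ d4) : False := by
  have key : ∀ x y : G.Dart, x.fst = y.fst → x ≠ y → x.snd ≠ y.snd := by
    intro x y hxy hne h
    apply hne
    apply SimpleGraph.Dart.ext
    exact Prod.ext hxy h
  have hsub : (({d1.snd, d2.snd, d3.snd, d4.snd} : Finset V) : Set V) ⊆
      G.neighborSet d1.fst := by
    intro x hx
    simp only [Finset.coe_insert, Finset.coe_singleton, Set.mem_insert_iff,
      Set.mem_singleton_iff] at hx
    rw [SimpleGraph.mem_neighborSet]
    rcases hx with rfl | rfl | rfl | rfl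
    · exact d1.adj
    · rw [← e2]; exact d2.adj
    · rw [← e3]; exact d3.adj
    · rw [← e4]; exact d4.adj
  have h1 := Set.ncard_le_ncard hsub (Set.toFinite _)
  rw [Set.ncard_coe_finset, h3] at h1
  have h2 : ({d1.snd, d2.snd, d3.snd, d4.snd} : Finset V).card = 4 := by
    rw [Finset.card_insert_of_notMem, Finset.card_insert_of_notMem,
      Finset.card_insert_of_notMem, Finset.card_singleton]
    · simp only [Finset.mem_singleton]
      exact key d3 d4 (e3.trans e4.symm) n34
    · simp only [Finset.mem_insert, Finset.mem_singleton, not_or]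
      exact ⟨key d2 d3 (e2.trans e3.symm) n23, key d2 d4 (e2.trans e4.symm) n24⟩
    · simp only [Finset.mem_insert, Finset.mem_singleton, not_or]
      exact ⟨key d1 d2 e2.symm n12, key d1 d3 e3.symm n13, key d1 d4 e4.symm n14⟩
  omega

private theorem ct24_third (h3 : ∀ v : V, (G.neighborSet v).ncard = 3) (x y : G.Dart)
    (hxy : y.fst = x.fst) : ∃ w : G.Dart, w.fst = x.fst ∧ w ≠ x ∧ w ≠ y := by
  by_contra hcon
  push Not at hcon
  have hsub : G.neighborSet x.fst ⊆ (({x.snd, y.snd} : Finset V) : Set V) := by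
    intro z hz
    rw [SimpleGraph.mem_neighborSet] at hz
    simp only [Finset.coe_insert, Finset.coe_singleton, Set.mem_insert_iff,
      Set.mem_singleton_iff]
    by_cases h1 : z = x.snd
    · exact Or.inl h1
    · right
      have h2 := hcon ⟨(x.fst, z), hz⟩ rfl (by
        intro h
        apply h1
        rw [← h])
      rw [← h2]
  have h1 := Set.ncard_le_ncard hsub (Set.toFinite _)
  rw [Set.ncard_coe_finset, h3] at h1
  have h2 : ({x.snd, y.snd} : Finset V).card ≤ 2 := Finset.card_le_two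
  omega

private theorem ct24_s3 (ρ : Equiv.Perm G.Dart) (h1 : ∀ d, (ρ d).fst = d.fst)
    (h2 : ∀ d, ρ d ≠ d) (h3 : ∀ v : V, (G.neighborSet v).ncard = 3) (d : G.Dart) :
    ρ (ρ (ρ d)) = d := by
  have f1 : (ρ d).fst = d.fst := h1 d
  have f2 : (ρ (ρ d)).fst = d.fst := (h1 _).trans f1
  have f3 : (ρ (ρ (ρ d))).fst = d.fst := (h1 _).trans f2
  have n1 : d ≠ ρ d := fun h => h2 d h.symm
  have n2 : ρ d ≠ ρ (ρ d) := fun h => h2 (ρ d) h.symm
  have n3 : ρ (ρ d) ≠ ρ (ρ (ρ d)) := fun h => h2 (ρ (ρ d)) h.symm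
  have n4 : d ≠ ρ (ρ d) := by
    intro h
    obtain ⟨w, hw, hwx, hwy⟩ := ct24_third G h3 d (ρ d) f1
    apply ct24_fintype_four G h3 d (ρ d) w (ρ w) f1 hw ((h1 w).trans hw) n1 hwx.symm
    · intro h5
      have : ρ (ρ d) = ρ w := h.symm.trans h5
      exact hwy (ρ.injective this).symm
    · exact hwy.symm
    · intro h5
      exact hwx (ρ.injective h5).symm
    · exact fun h => h2 w h.symm
  by_contra hcon
  apply ct24_fintype_four G h3 d (ρ d) (ρ (ρ d)) (ρ (ρ (ρ d))) f1 f2 f3 n1 n4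
    (fun h => hcon h.symm) n2 _ n3
  intro h
  exact n4 (ρ.injective h)

/-- The cubic map of a simple cubic graph with a rotation system. -/
def mapOf (ρ : Equiv.Perm G.Dart) (h1 : ∀ d, (ρ d).fst = d.fst) (h2 : ∀ d, ρ d ≠ d)
    (h3 : ∀ v : V, (G.neighborSet v).ncard = 3) : CMap G.Dart where
  s := ρ
  a := SimpleGraph.Dart.symm
  s3 := ct24_s3 G ρ h1 h2 h3
  s1 := h2
  a2 := fun d => SimpleGraph.Dart.symm_symm d
  a1 := fun d => SimpleGraph.Dart.symm_ne d

variable (ρ : Equiv.Perm G.Dart) (h1 : ∀ d, (ρ d).fst = d.fst) (h2 : ∀ d, ρ d ≠ d)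
    (h3 : ∀ v : V, (G.neighborSet v).ncard = 3)

include h1 h2 h3 in
private theorem ct24_cases (d x : G.Dart) (hx : x.fst = d.fst) :
    x = d ∨ x = ρ d ∨ x = ρ (ρ d) := by
  by_contra hcon
  push Not at hcon
  obtain ⟨c1, c2, c3⟩ := hcon
  have f1 : (ρ d).fst = d.fst := h1 d
  have f2 : (ρ (ρ d)).fst = d.fst := (h1 _).trans f1
  have n1 : d ≠ ρ d := fun h => h2 d h.symm
  have n2 : ρ d ≠ ρ (ρ d) := fun h => h2 (ρ d) h.symm
  have n4 : d ≠ ρ (ρ d) := by
    intro h
    have h5 := ct24_s3 G ρ h1 h2 h3 d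
    rw [← h] at h5
    exact h2 d h5
  exact ct24_fintype_four G h3 d (ρ d) (ρ (ρ d)) x f1 f2 hx n1 n4 c1.symm n2 c2.symm c3.symm

include h1 h2 h3 in
private theorem ct24_snd_ne (d : G.Dart) : d.snd ≠ (ρ d).snd ∧ d.snd ≠ (ρ (ρ d)).snd ∧
    (ρ d).snd ≠ (ρ (ρ d)).snd := by
  have key : ∀ x y : G.Dart, x.fst = y.fst → x ≠ y → x.snd ≠ y.snd := by
    intro x y hxy hne h
    apply hne
    apply SimpleGraph.Dart.ext
    exact Prod.ext hxy h
  have n1 : d ≠ ρ d := fun h => h2 d h.symm
  have n2 : ρ d ≠ ρ (ρ d) := fun h => h2 (ρ d) h.symm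
  have n4 : d ≠ ρ (ρ d) := by
    intro h
    have h5 := ct24_s3 G ρ h1 h2 h3 d
    rw [← h] at h5
    exact h2 d h5
  exact ⟨key _ _ (h1 d).symm n1, key _ _ ((h1 _).trans (h1 d)).symm n4,
    key _ _ (h1 (ρ d)).symm n2⟩

/-- CT-24 -/
theorem ham_of_cycle (u : V) (p : G.Walk u u) (hp : p.IsHamiltonianCycle) :
    (mapOf G ρ h1 h2 h3).IsHam (fun d => decide (d.edge ∈ p.edges)) := by
  have hmem : ∀ d : G.Dart, (decide (d.edge ∈ p.edges) = true) ↔
      d.snd ∈ p.toSubgraph.neighborSet d.fst := by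
    intro d
    rw [decide_eq_true_iff, SimpleGraph.Subgraph.mem_neighborSet,
      SimpleGraph.Walk.adj_toSubgraph_iff_mem_edges]
    exact Iff.rfl
  refine ⟨?_, ?_, ?_⟩
  · intro d
    show decide ((d.symm).edge ∈ p.edges) = decide (d.edge ∈ p.edges)
    rw [SimpleGraph.Dart.edge_symm]
  · intro d
    have hN : (p.toSubgraph.neighborSet d.fst).ncard = 2 :=
      hp.isCycle.ncard_neighborSet_toSubgraph_eq_two (hp.mem_support d.fst)
    obtain ⟨s1, s2, s3⟩ := ct24_snd_ne G ρ h1 h2 h3 d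
    have f1 : (ρ d).fst = d.fst := h1 d
    have f2 : (ρ (ρ d)).fst = d.fst := (h1 _).trans f1
    have m1 := hmem d
    have m2 := hmem (ρ d)
    have m3 := hmem (ρ (ρ d))
    rw [f1] at m2
    rw [f2] at m3
    have hsub : p.toSubgraph.neighborSet d.fst ⊆ {d.snd, (ρ d).snd, (ρ (ρ d)).snd} := by
      intro z hz
      have hadj : G.Adj d.fst z := by
        rw [SimpleGraph.Subgraph.mem_neighborSet] at hz
        exact hz.adj_sub
      rcases ct24_cases G ρ h1 h2 h3 d ⟨(d.fst, z), hadj⟩ rfl with h | h | h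
      · left; rw [← h]
      · right; left; rw [← h]
      · right; right
        rw [Set.mem_singleton_iff, ← h]
    show One (decide (d.edge ∈ p.edges)) (decide ((ρ d).edge ∈ p.edges))
      (decide ((ρ (ρ d)).edge ∈ p.edges))
    generalize decide (d.edge ∈ p.edges) = b1 at m1 ⊢
    generalize decide ((ρ d).edge ∈ p.edges) = b2 at m2 ⊢
    generalize decide ((ρ (ρ d)).edge ∈ p.edges) = b3 at m3 ⊢
    obtain ⟨x, y, hxy, hset⟩ := Set.ncard_eq_two.1 hN
    rw [hset] at m1 m2 m3 hsub
    have hx : x ∈ ({d.snd, (ρ d).snd, (ρ (ρ d)).snd} : Set V) := hsub (by simp)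
    have hy : y ∈ ({d.snd, (ρ d).snd, (ρ (ρ d)).snd} : Set V) := hsub (by simp)
    simp only [Set.mem_insert_iff, Set.mem_singleton_iff] at hx hy m1 m2 m3
    unfold One
    cases b1 <;> cases b2 <;> cases b3 <;> simp at m1 m2 m3 ⊢ <;> grind
  · -- walks
    have hsame : ∀ x y : G.Dart, y.fst = x.fst → decide (x.edge ∈ p.edges) = true →
        decide (y.edge ∈ p.edges) = true →
        Conn (mapOf G ρ h1 h2 h3).s (mapOf G ρ h1 h2 h3).a
          (fun d => decide (d.edge ∈ p.edges)) x y := by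
      intro x y hxy hx hy
      rcases ct24_cases G ρ h1 h2 h3 x y hxy with h | h | h
      · rw [h]; exact Relation.ReflTransGen.refl
      · exact Relation.ReflTransGen.single ⟨hx, hy, Or.inr (Or.inl h)⟩
      · exact Relation.ReflTransGen.single ⟨hx, hy, Or.inr (Or.inr h)⟩
    have hwalk : ∀ (v w : V) (q : G.Walk v w), (∀ e ∈ q.edges, e ∈ p.edges) →
        ∀ x y : G.Dart, x.fst = v → y.fst = w → decide (x.edge ∈ p.edges) = true →
        decide (y.edge ∈ p.edges) = true →
        Conn (mapOf G ρ h1 h2 h3).s (mapOf G ρ h1 h2 h3).a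
          (fun d => decide (d.edge ∈ p.edges)) x y := by
      intro v w q
      induction q with
      | nil =>
        intro _ x y hx hy hx' hy'
        exact hsame x y (hy.trans hx.symm) hx' hy'
      | @cons v v' w hadj q ih =>
        intro hq x y hx hy hx' hy'
        have hd : decide ((⟨(v, v'), hadj⟩ : G.Dart).edge ∈ p.edges) = true := by
          rw [decide_eq_true_iff]
          apply hq
          rw [SimpleGraph.Walk.edges_cons]
          exact List.mem_cons_self
        have hd' : decide ((⟨(v, v'), hadj⟩ : G.Dart).symm.edge ∈ p.edges) = true := by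
          rw [SimpleGraph.Dart.edge_symm]; exact hd
        have c1 := hsame x ⟨(v, v'), hadj⟩ hx.symm hx' hd
        have c2 : Conn (mapOf G ρ h1 h2 h3).s (mapOf G ρ h1 h2 h3).a
            (fun d => decide (d.edge ∈ p.edges)) (⟨(v, v'), hadj⟩ : G.Dart)
            (⟨(v, v'), hadj⟩ : G.Dart).symm :=
          Relation.ReflTransGen.single ⟨hd, hd', Or.inl rfl⟩
        have c3 := ih (fun e he => hq e (by
          rw [SimpleGraph.Walk.edges_cons]
          exact List.mem_cons_of_mem _ he)) (⟨(v, v'), hadj⟩ : G.Dart).symm y rfl hy hd' hy'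
        exact (c1.trans c2).trans c3
    intro x y hx hy
    have mx := hp.mem_support x.fst
    have my := hp.mem_support y.fst
    refine hwalk x.fst y.fst ((p.takeUntil x.fst mx).reverse.append (p.takeUntil y.fst my))
      ?_ x y rfl rfl hx hy
    intro e he
    rw [SimpleGraph.Walk.edges_append, SimpleGraph.Walk.edges_reverse, List.mem_append,
      List.mem_reverse] at he
    rcases he with he | he
    · exact p.edges_takeUntil_subset_edges mx he
    · exact p.edges_takeUntil_subset_edges my he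

/-- CT-25 -/
theorem cycle_of_ham [Nonempty V] (U : G.Dart → Bool) (hU : (mapOf G ρ h1 h2 h3).IsHam U) :
    ∃ (u : V) (p : G.Walk u u), p.IsHamiltonianCycle ∧
      ∀ d : G.Dart, U d = true ↔ d.edge ∈ p.edges := by
  classical
  have hUa : ∀ d : G.Dart, U d.symm = U d := hU.acl
  have hUo : ∀ d : G.Dart, One (U d) (U (ρ d)) (U (ρ (ρ d))) := hU.one
  let H : SimpleGraph V :=
    { Adj := fun v w => ∃ d : G.Dart, U d = true ∧ d.fst = v ∧ d.snd = w
      symm := ⟨by
        rintro v w ⟨d, hd, rfl, rfl⟩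
        exact ⟨d.symm, by rw [hUa]; exact hd, rfl, rfl⟩⟩
      loopless := ⟨by
        rintro v ⟨d, _, h, h'⟩
        exact d.adj.ne (h.trans h'.symm)⟩ }
  have hHadj : ∀ v w, H.Adj v w ↔ ∃ d : G.Dart, U d = true ∧ d.fst = v ∧ d.snd = w :=
    fun v w => Iff.rfl
  have hle : H ≤ G := by
    rintro v w ⟨d, _, rfl, rfl⟩
    exact d.adj
  have hdart : ∀ v : V, ∃ d : G.Dart, d.fst = v := by
    intro v
    have : (G.neighborSet v).Nonempty := by
      apply Set.nonempty_of_ncard_ne_zero
      rw [h3]; norm_num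
    obtain ⟨w, hw⟩ := this
    exact ⟨⟨(v, w), hw⟩, rfl⟩
  have hused : ∀ v : V, ∃ d : G.Dart, d.fst = v ∧ U d = true := by
    intro v
    obtain ⟨d, rfl⟩ := hdart v
    rcases hUo d with h | h | h
    · exact ⟨ρ d, h1 d, h.2.1⟩
    · exact ⟨d, rfl, h.1⟩
    · exact ⟨d, rfl, h.1⟩
  have htwo : ∀ v : V, (H.neighborSet v).ncard = 2 := by
    intro v
    obtain ⟨d, rfl⟩ := hdart v
    obtain ⟨s1, s2, s3⟩ := ct24_snd_ne G ρ h1 h2 h3 d
    have f1 : (ρ d).fst = d.fst := h1 d
    have f2 : (ρ (ρ d)).fst = d.fst := (h1 _).trans f1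
    have hmem : ∀ z, z ∈ H.neighborSet d.fst ↔ (U d = true ∧ z = d.snd) ∨
        (U (ρ d) = true ∧ z = (ρ d).snd) ∨ (U (ρ (ρ d)) = true ∧ z = (ρ (ρ d)).snd) := by
      intro z
      rw [SimpleGraph.mem_neighborSet, hHadj]
      constructor
      · rintro ⟨x, hx, hxf, rfl⟩
        rcases ct24_cases G ρ h1 h2 h3 d x hxf with h | h | h
        · left; rw [← h]; exact ⟨hx, rfl⟩
        · right; left; rw [← h]; exact ⟨hx, rfl⟩
        · right; right; rw [← h]; exact ⟨hx, rfl⟩
      · rintro (⟨h, rfl⟩ | ⟨h, rfl⟩ | ⟨h, rfl⟩)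
        · exact ⟨d, h, rfl, rfl⟩
        · exact ⟨ρ d, h, f1, rfl⟩
        · exact ⟨ρ (ρ d), h, f2, rfl⟩
    rcases hUo d with ⟨a, b, c⟩ | ⟨a, b, c⟩ | ⟨a, b, c⟩
    · have : H.neighborSet d.fst = {(ρ d).snd, (ρ (ρ d)).snd} := by
        ext z
        rw [hmem, a, b, c]
        simp
      rw [this, Set.ncard_pair s3]
    · have : H.neighborSet d.fst = {d.snd, (ρ (ρ d)).snd} := by
        ext z
        rw [hmem, a, b, c]
        simp
      rw [this, Set.ncard_pair s2]
    · have : H.neighborSet d.fst = {d.snd, (ρ d).snd} := by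
        ext z
        rw [hmem, a, b, c]
        simp
      rw [this, Set.ncard_pair s1]
  have hcyc : H.IsCycles := fun v _ => htwo v
  have hreach : ∀ v w : V, H.Reachable v w := by
    intro v w
    obtain ⟨x, rfl, hx⟩ := hused v
    obtain ⟨y, rfl, hy⟩ := hused w
    have hc := hU.conn x y hx hy
    clear hy
    unfold Conn at hc
    induction hc with
    | refl => exact SimpleGraph.Reachable.refl _
    | tail hab hbc ih =>
      rename_i b c
      refine ih.trans ?_
      obtain ⟨hb, hc, h | h | h⟩ := hbc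
      · rw [h]
        apply SimpleGraph.Adj.reachable
        exact ⟨b, hb, rfl, rfl⟩
      · rw [h]
        have : ((mapOf G ρ h1 h2 h3).s b).fst = b.fst := h1 b
        rw [this]
      · rw [h]
        have : ((mapOf G ρ h1 h2 h3).s ((mapOf G ρ h1 h2 h3).s b)).fst = b.fst :=
          (h1 (ρ b)).trans (h1 b)
        rw [this]
  obtain ⟨v0⟩ : Nonempty V := inferInstance
  have hne : (H.neighborSet v0).Nonempty := by
    apply Set.nonempty_of_ncard_ne_zero
    rw [htwo]; norm_num
  obtain ⟨p, hp, hverts⟩ := hcyc.exists_cycle_toSubgraph_verts_eq_connectedComponentSupp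
    (c := H.connectedComponentMk v0) (v := v0) rfl hne
  have hall : ∀ w, w ∈ p.toSubgraph.verts := by
    intro w
    rw [hverts, SimpleGraph.ConnectedComponent.mem_supp_iff]
    exact SimpleGraph.ConnectedComponent.sound (hreach w v0)
  have hedge : ∀ d : G.Dart, U d = true ↔ d.edge ∈ p.edges := by
    intro d
    have e1 := hp.adj_toSubgraph_iff_of_isCycles hcyc (hall d.fst) d.snd
    rw [SimpleGraph.Walk.adj_toSubgraph_iff_mem_edges] at e1
    have e2 : d.edge = s(d.fst, d.snd) := rfl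
    rw [e2, e1, hHadj]
    constructor
    · intro h; exact ⟨d, h, rfl, rfl⟩
    · rintro ⟨d', h, hf, hs⟩
      have : d' = d := by
        apply SimpleGraph.Dart.ext
        exact Prod.ext hf hs
      rw [← this]; exact h
  refine ⟨v0, p.mapLe hle, ?_, ?_⟩
  · rw [SimpleGraph.Walk.isHamiltonianCycle_iff_isCycle_and_support_count_tail_eq_one]
    have hc' : (p.mapLe hle).IsCycle := hp.mapLe hle
    refine ⟨hc', fun a => ?_⟩
    apply List.count_eq_one_of_mem hc'.support_nodup
    have ha : a ∈ p.support := by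
      have := hall a
      rwa [SimpleGraph.Walk.mem_verts_toSubgraph] at this
    have ha' : a ∈ (p.mapLe hle).support := by
      rw [SimpleGraph.Walk.support_mapLe_eq_support]; exact ha
    have hsup := (p.mapLe hle).support_eq_cons
    rw [hsup, List.mem_cons] at ha'
    rcases ha' with h | h
    · rw [h]
      exact SimpleGraph.Walk.end_mem_tail_support hc'.not_nil
    · exact h
  · intro d
    rw [SimpleGraph.Walk.edges_mapLe_eq_edges]
    exact hedge d

/-- CT-26 -/
theorem three_of_ncard (h : {s : Set (Sym2 V) | ∃ (u : V) (p : G.Walk u u),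
          p.IsHamiltonianCycle ∧ s = {e : Sym2 V | e ∈ p.edges}}.ncard = 3) :
    ∃ U, (mapOf G ρ h1 h2 h3).Three U := by
  classical
  obtain ⟨s0, s1, s2, n01, n02, n12, hset⟩ := Set.ncard_eq_three.1 h
  let S : Fin 3 → Set (Sym2 V) := ![s0, s1, s2]
  have hS : ∀ i, ∃ (u : V) (p : G.Walk u u), p.IsHamiltonianCycle ∧
      S i = {e : Sym2 V | e ∈ p.edges} := by
    intro i
    have : S i ∈ {s : Set (Sym2 V) | ∃ (u : V) (p : G.Walk u u),
          p.IsHamiltonianCycle ∧ s = {e : Sym2 V | e ∈ p.edges}} := by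
      rw [hset]
      fin_cases i
      · left; rfl
      · right; left; rfl
      · right; right; rfl
    exact this
  have hne : Nonempty V := by
    obtain ⟨u, _⟩ := hS 0
    exact ⟨u⟩
  have hSinj : Function.Injective S := by
    intro i j hij
    fin_cases i <;> fin_cases j
    · rfl
    · exact absurd hij n01
    · exact absurd hij n02
    · exact absurd hij.symm n01
    · rfl
    · exact absurd hij n12
    · exact absurd hij.symm n02
    · exact absurd hij.symm n12
    · rfl
  refine ⟨fun i d => decide (d.edge ∈ S i), ?_, ?_, ?_⟩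
  · intro i
    obtain ⟨u, p, hp, hSi⟩ := hS i
    have := ham_of_cycle G ρ h1 h2 h3 u p hp
    have e : (fun d : G.Dart => decide (d.edge ∈ S i)) =
        fun d : G.Dart => decide (d.edge ∈ p.edges) := by
      funext d
      rw [hSi]
      simp
    rw [e]
    exact this
  · intro i j hij
    apply hSinj
    have key : ∀ i, ∀ e ∈ S i, ∃ d : G.Dart, d.edge = e := by
      intro i e he
      obtain ⟨u, p, hp, hSi⟩ := hS i
      rw [hSi] at he
      have := p.edges_subset_edgeSet he
      induction e using Sym2.ind with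
      | _ x y => exact ⟨⟨(x, y), this⟩, rfl⟩
    have hd : ∀ d : G.Dart, d.edge ∈ S i ↔ d.edge ∈ S j := by
      intro d
      have := congrFun hij d
      simp only [decide_eq_decide] at this
      exact this
    ext e
    constructor
    · intro he
      obtain ⟨d, rfl⟩ := key i e he
      exact (hd d).1 he
    · intro he
      obtain ⟨d, rfl⟩ := key j e he
      exact (hd d).2 he
  · intro W hW
    obtain ⟨u, p, hp, hWp⟩ := cycle_of_ham G ρ h1 h2 h3 W hW
    have hmem : ({e : Sym2 V | e ∈ p.edges} : Set (Sym2 V)) ∈ ({s0, s1, s2} : Set (Set (Sym2 V))) := by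
      rw [← hset]
      exact ⟨u, p, hp, rfl⟩
    have : ∃ i, S i = {e : Sym2 V | e ∈ p.edges} := by
      rcases hmem with h | h | h
      · exact ⟨0, h.symm⟩
      · exact ⟨1, h.symm⟩
      · exact ⟨2, (Set.mem_singleton_iff.1 h).symm⟩
    obtain ⟨i, hi⟩ := this
    refine ⟨i, ?_⟩
    funext d
    rw [Bool.eq_iff_iff, hWp d, decide_eq_true_iff, hi]
    rfl

/-- CT-27 -/
theorem iso_of_stk (h : (mapOf G ρ h1 h2 h3).Stk) :
    ∃ (n : ℕ) (Γ : ∀ k : ℕ, SimpleGraph (Fin (4 + 2 * k))),
          Γ 0 = (⊤ : SimpleGraph (Fin (4 + 2 * 0))) ∧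
          (∀ (k : ℕ) (x : Fin (4 + 2 * k)), ((Γ k).neighborSet x).ncard = 3) ∧
          (∀ k : ℕ, k < n →
            ∃ (f : Fin (4 + 2 * (k + 1)) → Fin (4 + 2 * k)) (v : Fin (4 + 2 * k)),
              (f ⁻¹' ({v} : Set (Fin (4 + 2 * k)))).ncard = 3 ∧
              (∀ w : Fin (4 + 2 * k), w ≠ v →
                (f ⁻¹' ({w} : Set (Fin (4 + 2 * k)))).ncard = 1) ∧
              (∀ x y : Fin (4 + 2 * (k + 1)),
                (Γ (k + 1)).Adj x y → f x = f y ∨ (Γ k).Adj (f x) (f y)) ∧
              (∀ x y : Fin (4 + 2 * (k + 1)),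
                x ≠ y → f x = v → f y = v → (Γ (k + 1)).Adj x y) ∧
              (∀ a b : Fin (4 + 2 * k), (Γ k).Adj a b →
                ∃! e : Sym2 (Fin (4 + 2 * (k + 1))),
                  e ∈ (Γ (k + 1)).edgeSet ∧ Sym2.map f e = s(a, b))) ∧
          Nonempty (G ≃g Γ n) := by
  obtain ⟨n, Γ, hΓ0, hΓ3, hstep, v, hvs, hveq, hadj⟩ := h
  refine ⟨n, Γ, hΓ0, hΓ3, hstep, ?_⟩
  have hdart : ∀ w : V, ∃ d : G.Dart, d.fst = w := by
    intro w
    have : (G.neighborSet w).Nonempty := by
      apply Set.nonempty_of_ncard_ne_zero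
      rw [h3]; norm_num
    obtain ⟨z, hz⟩ := this
    exact ⟨⟨(w, z), hz⟩, rfl⟩
  choose δ hδ using hdart
  have hVEq : ∀ d d' : G.Dart, (mapOf G ρ h1 h2 h3).VEq d d' ↔ d'.fst = d.fst := by
    intro d d'
    constructor
    · rintro (h | h | h)
      · rw [h]
      · rw [h]; exact h1 d
      · rw [h]; exact (h1 (ρ d)).trans (h1 d)
    · intro h
      exact ct24_cases G ρ h1 h2 h3 d d' h
  have hvf : ∀ d d' : G.Dart, v d = v d' ↔ d'.fst = d.fst := fun d d' =>
    (hveq d d').trans (hVEq d d')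
  have hvδ : ∀ d : G.Dart, v (δ d.fst) = v d := by
    intro d
    rw [hvf, hδ]
  have hbij : Function.Bijective (fun w : V => v (δ w)) := by
    constructor
    · intro w w' hw
      have := (hvf _ _).1 hw
      rw [hδ, hδ] at this
      exact this.symm
    · intro x
      obtain ⟨d, rfl⟩ := hvs x
      exact ⟨d.fst, hvδ d⟩
  refine ⟨⟨Equiv.ofBijective _ hbij, ?_⟩⟩
  intro w w'
  show (Γ n).Adj (v (δ w)) (v (δ w')) ↔ G.Adj w w'
  rw [hadj]
  constructor
  · rintro ⟨d, hd1, hd2⟩
    have e1 := (hvf _ _).1 hd1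
    have e2 := (hvf _ _).1 hd2
    rw [hδ] at e1 e2
    have e3 : w' = d.snd := e2
    rw [e1, e3]
    exact d.adj
  · intro hww
    refine ⟨⟨(w, w'), hww⟩, (hvδ ⟨(w, w'), hww⟩).symm, ?_⟩
    exact (hvδ (⟨(w, w'), hww⟩ : G.Dart).symm).symm

end graph

end Pool.Agent.Helper17.CT
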